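import Pool.Agent.Helper69.OWN.T26

/-!
A tournament in which the least number of arcs of a 5-arc-strong spanning subdigraph is larger
than the least number of arcs of a spanning subdigraph with all in- and out-degrees at least 5.
-/

set_option autoImplicit false

namespace Pool.Agent.Results.MP_883534_co.FiveArcStrong

open Pool.Agent.Helper69.OWN.T26

/-- `D` is `k`-arc-strong: after deletion of any set `A'` of at most `k - 1` arcs of `D`, every
vertex can be reached from every vertex by a directed path. -/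
def ArcStrong {V : Type} (k : ℕ) (D : V → V → Prop) : Prop :=
  ∀ A' : Finset (V × V), (∀ e ∈ A', D e.1 e.2) → A'.card < k →
    ∀ u v : V, Relation.ReflTransGen (fun a b => D a b ∧ (a, b) ∉ A') u v

/-- the number of arcs -/
noncomputable def arcs {V : Type} (D : V → V → Prop) : ℕ := Nat.card {e : V × V // D e.1 e.2}

theorem arcStrong_of_cuts {k : ℕ} {A : Finset (Fin 26 × Fin 26)}
    (h : ∀ S : Finset (Fin 26), S.Nonempty → S ≠ Finset.univ →
      k ≤ (A.filter (fun e => e.1 ∈ S ∧ e.2 ∉ S)).card) :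
    ArcStrong k (fun u v => (u, v) ∈ A) := by
  classical
  intro A' _ hcard u v
  by_contra hn
  let S : Finset (Fin 26) := Finset.univ.filter fun w =>
    Relation.ReflTransGen (fun a b => (a, b) ∈ A ∧ (a, b) ∉ A') u w
  have hu : u ∈ S := by simp [S, Relation.ReflTransGen.refl]
  have hv : v ∉ S := by simpa [S] using hn
  have h1 := h S ⟨u, hu⟩ (fun e => hv (by rw [e]; exact Finset.mem_univ v))
  have h2 : A.filter (fun e => e.1 ∈ S ∧ e.2 ∉ S) ⊆ A' := by
    rintro ⟨a, b⟩ he
    simp only [Finset.mem_filter] at he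
    by_contra hA'
    apply he.2.2
    have ha : Relation.ReflTransGen (fun a b => (a, b) ∈ A ∧ (a, b) ∉ A') u a := by
      simpa [S] using he.2.1
    simpa [S] using ha.tail ⟨he.1, hA'⟩
  have := Finset.card_le_card h2
  omega

theorem cuts_of_arcStrong {k : ℕ} {A : Finset (Fin 26 × Fin 26)}
    (h : ArcStrong k (fun u v => (u, v) ∈ A)) (S : Finset (Fin 26)) (hS : S.Nonempty)
    (hS' : S ≠ Finset.univ) : k ≤ (A.filter (fun e => e.1 ∈ S ∧ e.2 ∉ S)).card := by
  classical
  by_contra hk
  obtain ⟨u, hu⟩ := hS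
  obtain ⟨v, hv⟩ : ∃ v, v ∉ S := by
    by_contra hc
    push Not at hc
    exact hS' (Finset.eq_univ_iff_forall.2 hc)
  have h1 := h (A.filter (fun e => e.1 ∈ S ∧ e.2 ∉ S))
    (fun e he => (Finset.mem_filter.1 he).1) (not_le.1 hk) u v
  have h2 : ∀ w, Relation.ReflTransGen (fun a b => (a, b) ∈ A ∧
      (a, b) ∉ A.filter (fun e => e.1 ∈ S ∧ e.2 ∉ S)) u w → w ∈ S := by
    intro w hw
    induction hw with
    | refl => exact hu
    | tail _ hab ih =>
      by_contra hb
      exact hab.2 (Finset.mem_filter.2 ⟨hab.1, ih, hb⟩)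
  exact hv (h2 v h1)

theorem arcs_eq (A : Finset (Fin 26 × Fin 26)) : arcs (fun u v => (u, v) ∈ A) = A.card := by
  classical
  unfold arcs
  rw [Nat.card_eq_fintype_card, Fintype.card_subtype]
  congr 1
  ext ⟨u, v⟩
  simp

/-- **The two numbers of arcs can be different.** -/
theorem result : ∃ T : Fin 26 → Fin 26 → Prop,
    (∀ u, ¬ T u u) ∧ (∀ u v, u ≠ v → (T u v ↔ ¬ T v u)) ∧ ArcStrong 5 T ∧
    (∃ B : Fin 26 → Fin 26 → Prop, (∀ u v, B u v → T u v) ∧
      (∀ v, 5 ≤ Nat.card {w // B v w} ∧ 5 ≤ Nat.card {w // B w v}) ∧ arcs B = 135) ∧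
    ∀ C : Fin 26 → Fin 26 → Prop, (∀ u v, C u v → T u v) → ArcStrong 5 C → 136 ≤ arcs C := by
  classical
  refine ⟨fun u v => (u, v) ∈ T, ?_, ?_, arcStrong_of_cuts T_strong,
    ⟨fun u v => (u, v) ∈ B, ?_, ?_, ?_⟩, ?_⟩
  · intro u h
    rw [mem_T, adj_irrefl] at h
    exact absurd h (by decide)
  · intro u v huv
    show (u, v) ∈ T ↔ ¬ (v, u) ∈ T
    rw [mem_T, mem_T]
    exact adj_tour u v huv
  · intro u v h
    simp only [B, Finset.mem_filter, Finset.mem_univ, true_and] at h
    exact (mem_T u v).2 (B_sub u v h)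
  · intro v
    have h1 : Nat.card {w // (v, w) ∈ B} = (B.filter (fun e => e.1 = v)).card := by
      rw [Nat.card_eq_fintype_card, Fintype.card_subtype]
      refine Finset.card_bij (fun w _ => (v, w)) ?_ ?_ ?_
      · intro w hw
        simpa using hw
      · intro a _ b _ hab
        simpa using hab
      · rintro ⟨a, b⟩ hab
        simp only [Finset.mem_filter] at hab
        obtain ⟨hm, rfl⟩ := hab
        exact ⟨b, Finset.mem_filter.2 ⟨Finset.mem_univ _, hm⟩, rfl⟩
    have h2 : Nat.card {w // (w, v) ∈ B} = (B.filter (fun e => e.2 = v)).card := by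
      rw [Nat.card_eq_fintype_card, Fintype.card_subtype]
      refine Finset.card_bij (fun w _ => (w, v)) ?_ ?_ ?_
      · intro w hw
        simpa using hw
      · intro a _ b _ hab
        simpa using hab
      · rintro ⟨a, b⟩ hab
        simp only [Finset.mem_filter] at hab
        obtain ⟨hm, rfl⟩ := hab
        exact ⟨a, Finset.mem_filter.2 ⟨Finset.mem_univ _, hm⟩, rfl⟩
    rw [h1, h2]
    exact B_deg v
  · rw [arcs_eq, B_card]
  · intro C hCT hC
    have e1 : C = fun u v => (u, v) ∈ Finset.univ.filter (fun e : Fin 26 × Fin 26 => C e.1 e.2) := by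
      funext u v
      simp
    rw [e1] at hC ⊢
    rw [arcs_eq]
    refine bound _ ?_ (cuts_of_arcStrong hC)
    rintro ⟨u, v⟩ he
    exact hCT u v (by simpa using he)

end Pool.Agent.Results.MP_883534_co.FiveArcStrong
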